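import Pool.Agent.Helper95.RK.GoalsB
import Pool.Agent.Helper95.RK.Basics
import Pool.Agent.Helper95.Lin.Basics
import Pool.Agent.Helper97.SP.BNAT
import Pool.Agent.Helper62.SP.FINV
import Pool.Agent.Helper86.SP.ACB

/-! # NATA. First order naturality -/

open Complex Metric Set Filter Topology MeasureTheory
open scoped ContDiff ComplexConjugate ComplexOrder Manifold Matrix

namespace Pool.Agent.Helper77.RK

open Pool.Agent.Helper95.Lin Pool.Agent.Helper16.Abund Pool.Agent.Helper92.Orb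
open Pool.Agent.Helper10.SP Pool.Agent.Helper95.RK

variable {b k : ℕ}

/-- A vector with zero base part is a combination of the fibre vectors. -/
theorem eq_sum_ef {e : Cn (b + k)} (h : base e = 0) : e = ∑ p : Fin k, e (Fin.natAdd b p) • ef b p := by
  apply ext_base_fib
  · rw [h]
    have h1 : base (∑ p : Fin k, e (Fin.natAdd b p) • ef b p) =
        ∑ p : Fin k, e (Fin.natAdd b p) • base (ef b p : Cn (b + k)) := by
      rw [← bsL_apply, map_sum]
      refine Finset.sum_congr rfl fun p _ => ?_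
      rw [map_smul, bsL_apply]
    rw [h1]
    simp
  · have h1 : fib (∑ p : Fin k, e (Fin.natAdd b p) • ef b p) =
        ∑ p : Fin k, e (Fin.natAdd b p) • fib (ef b p : Cn (b + k)) := by
      rw [← fbL_apply, map_sum]
      refine Finset.sum_congr rfl fun p _ => ?_
      rw [map_smul, fbL_apply]
    rw [h1]
    simp only [fib_ef]
    funext q
    simp [Finset.sum_apply, Pi.single_apply, fib]

/-- The determinant of a block triangular map. -/
theorem det_block (D : Cn (b + k) →L[ℂ] Cn (b + k)) (h : ∀ i : Fin k, base (D (ef b i)) = 0) :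
    D.det = (Matrix.of fun a c : Fin b => D (Pi.single (Fin.castAdd k a) 1) (Fin.castAdd k c)).det *
      (Matrix.of fun i p : Fin k => D (ef b i) (Fin.natAdd b p)).det := by
  rw [Pool.Agent.Helper97.SP.det_eq, ← Matrix.det_transpose,
    ← Matrix.det_submatrix_equiv_self finSumFinEquiv]
  have h1 : ((Matrix.of fun q j => D (Pi.single j 1) q)ᵀ.submatrix (finSumFinEquiv (m := b) (n := k))
      (finSumFinEquiv (m := b) (n := k))) = Matrix.fromBlocks
        (Matrix.of fun a c : Fin b => D (Pi.single (Fin.castAdd k a) 1) (Fin.castAdd k c))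
        (Matrix.of fun (a : Fin b) (p : Fin k) =>
          D (Pi.single (Fin.castAdd k a) 1) (Fin.natAdd b p)) 0
        (Matrix.of fun i p : Fin k => D (ef b i) (Fin.natAdd b p)) := by
    ext s t
    rcases s with a | i <;> rcases t with c | p
    · simp [Matrix.submatrix]
    · simp [Matrix.submatrix]
    · have h2 := congrFun (h i) c
      simp only [base, ef] at h2
      simpa [Matrix.submatrix] using h2
    · simp [Matrix.submatrix, ef]
  rw [h1, Matrix.det_fromBlocks_zero₂₁]

/-- The sesquilinear form of combinations of the fibre vectors. -/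
theorem hermi_fib (A : Matrix (Fin (b + k)) (Fin (b + k)) ℂ) {u w : Cn (b + k)}
    (hu : base u = 0) (hw : base w = 0) :
    hermi A u w = ∑ p : Fin k, ∑ q : Fin k, A (Fin.natAdd b p) (Fin.natAdd b q) *
      u (Fin.natAdd b p) * conj (w (Fin.natAdd b q)) := by
  have hu' : ∀ a : Fin b, u (Fin.castAdd k a) = 0 := fun a => congrFun hu a
  have hw' : ∀ a : Fin b, w (Fin.castAdd k a) = 0 := fun a => congrFun hw a
  unfold hermi
  rw [Fin.sum_univ_add]
  simp only [Fin.sum_univ_add, hu', hw']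
  simp

theorem hermi_single {n : ℕ} (A : Matrix (Fin n) (Fin n) ℂ) (i j : Fin n) :
    hermi A (Pi.single i 1) (Pi.single j 1) = A i j := by
  unfold hermi
  rw [Finset.sum_eq_single i, Finset.sum_eq_single j]
  · simp
  · intro q _ hq
    simp [hq]
  · simp
  · intro p _ hp
    simp [hp]
  · simp

theorem nata (hWIRT : S_WIRT) (hWCH : S_WCH) (hSMQ : S_SMQ) : S_NATA := by
  intro b k W' W Q' Q Φ' Φ τ hM
  have hW'o := hM.src.isOpen
  have hWo := hM.tgt.isOpen
  have hτ := hM.holo
  refine ⟨fun i p => ?_, fun a c => ?_, ?_⟩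
  · exact Pool.Agent.Helper97.SP.G_holo hW'o hτ (Fin.natAdd b p) (Fin.natAdd b i)
  · exact Pool.Agent.Helper97.SP.G_holo hW'o hτ (Fin.castAdd k c) (Fin.castAdd k a)
  have hdet := Pool.Agent.Helper97.SP.holo_detD hW'o hτ
  obtain ⟨l1, l2⟩ := hWCH.2 W' hW'o (fun y => (fderiv ℂ τ y).det) hdet hM.det
  have hcomp : ContDiffOn ℝ ∞ (Φ ∘ τ) W' := hM.tgt.smP.comp (holo_contDiffOn_real hW'o hτ) hM.maps
  have heq : ∀ x ∈ W', Φ' =ᶠ[𝓝 x] fun y => (Φ ∘ τ) y + Real.log (‖(fderiv ℂ τ y).det‖ ^ 2) := by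
    intro x hx
    filter_upwards [hW'o.mem_nhds hx] with y hy
    exact hM.pot y hy
  have hlev : ∀ x ∈ W', ∀ e, lev Φ' x e = lev Φ (τ x) (fderiv ℂ τ x e) := by
    intro x hx e
    rw [Pool.Agent.Helper86.SP.lev_congr (heq x hx), Pool.Agent.Helper86.SP.lev_add hW'o hcomp l1 hx,
      (l2 x hx).1 e, add_zero]
    exact ((hWCH.1 W W' hWo hW'o τ hτ hM.maps).2 Φ hM.tgt.smP x hx).1 e
  have hLM : ∀ x ∈ W', ∀ j l, LM Φ' x j l = ∑ p, ∑ q, fderiv ℂ τ x (Pi.single j 1) p *
      conj (fderiv ℂ τ x (Pi.single l 1) q) * LM Φ (τ x) p q := by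
    intro x hx j l
    rw [Pool.Agent.Helper62.SP.LM_congr (heq x hx),
      Pool.Agent.Helper62.SP.LM_add hWIRT hW'o hcomp l1 hx, (l2 x hx).2.1, add_zero]
    exact ((hWCH.1 W W' hWo hW'o τ hτ hM.maps).2 Φ hM.tgt.smP x hx).2 j l
  have hbase : ∀ x ∈ W', ∀ e, base (fderiv ℂ τ x e) = 0 ↔ base e = 0 := by
    intro x hx e
    rw [← hM.tgt.ker (τ x) (hM.maps hx), ← hlev x hx e, hM.src.ker x hx]
  have hbe : ∀ x ∈ W', ∀ i : Fin k, base (fderiv ℂ τ x (ef b i)) = 0 := fun x hx i =>
    (hbase x hx _).2 (base_ef i)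
  intro x hx
  have hdetx : (fderiv ℂ τ x).det = (Gbq τ x).det * (Jfq τ x).det :=
    det_block _ (hbe x hx)
  have hgq : gq Q' x = Jfq τ x * gq Q (τ x) * (Jfq τ x)ᴴ := by
    ext i j
    have h1 : gq Q' x i j = hermi (Q' x) (ef b i) (ef b j) := by
      unfold ef
      rw [hermi_single]
      rfl
    rw [h1, ← hM.met x hx, hermi_fib _ (hbe x hx i) (hbe x hx j)]
    simp only [Matrix.mul_apply, Matrix.conjTranspose_apply, Finset.sum_mul, Jfq, Matrix.of_apply]
    rw [Finset.sum_comm]
    refine Finset.sum_congr rfl fun q _ => Finset.sum_congr rfl fun p _ => ?_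
    simp only [gq, fbl, Matrix.submatrix_apply, Complex.star_def]
    ring
  have hSM := (hSMQ W Q Φ hM.tgt).2 (τ x) (hM.maps hx)
  have hThq : Thq Φ' x = Gbq τ x * Thq Φ (τ x) * (Gbq τ x)ᴴ := by
    ext a c
    have h1 : Thq Φ' x a c = LM Φ' x (Fin.castAdd k a) (Fin.castAdd k c) := rfl
    rw [h1, hLM x hx, Fin.sum_univ_add]
    simp only [Fin.sum_univ_add, (hSM.1 _ _).1, (hSM.1 _ _).2, mul_zero, Finset.sum_const_zero,
      add_zero]
    simp only [Matrix.mul_apply, Matrix.conjTranspose_apply, Finset.sum_mul, Gbq, Matrix.of_apply]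
    rw [Finset.sum_comm]
    refine Finset.sum_congr rfl fun q _ => Finset.sum_congr rfl fun p _ => ?_
    simp only [Thq, Matrix.submatrix_apply, Complex.star_def]
    ring
  refine ⟨hbase x hx, hdetx, hgq, hThq, ?_, ?_, ?_⟩
  · unfold muq
    rw [hgq, hThq, hdetx]
    simp only [Matrix.det_mul, Matrix.det_conjTranspose]
    have h1 : ((‖(Gbq τ x).det * (Jfq τ x).det‖ ^ 2 : ℝ) : ℂ) =
        ((Gbq τ x).det * star (Gbq τ x).det) * ((Jfq τ x).det * star (Jfq τ x).det) := by
      simp only [Complex.star_def]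
      rw [Complex.mul_conj, Complex.mul_conj,
        Complex.normSq_eq_norm_sq, Complex.normSq_eq_norm_sq, norm_mul]
      push_cast
      ring
    rw [h1]
    ring
  · intro i a c
    have h1 := Pool.Agent.Helper97.SP.cd_G_symm hW'o hτ hx (Fin.castAdd k c) (Fin.natAdd b i)
      (Fin.castAdd k a)
    change cd (Fin.natAdd b i)
      (fun y => fderiv ℂ τ y (Pi.single (Fin.castAdd k a) 1) (Fin.castAdd k c)) x = 0
    rw [h1]
    have h2 : (fun y => fderiv ℂ τ y (Pi.single (Fin.natAdd b i) 1) (Fin.castAdd k c)) =ᶠ[𝓝 x]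
        fun _ => (0 : ℂ) := by
      filter_upwards [hW'o.mem_nhds hx] with y hy
      exact congrFun (hbe y hy i) c
    rw [Pool.Agent.Helper62.SP.cd_congr _ h2]
    unfold cd
    simp
  · intro f hf
    have hch := (hWCH.1 W W' hWo hW'o τ hτ hM.maps).1 f hf
    have hz : ∀ (i : Fin k) (c : Fin b), fderiv ℂ τ x (Pi.single (Fin.natAdd b i) 1)
        (Fin.castAdd k c) = 0 := fun i c => congrFun (hbe x hx i) c
    refine ⟨fun i => ⟨?_, ?_⟩, fun a => ?_⟩
    · have h1 := (hch (Fin.natAdd b i) x hx).1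
      rw [Fin.sum_univ_add] at h1
      simp only [hz, zero_mul, Finset.sum_const_zero, zero_add] at h1
      exact h1
    · have h1 := (hch (Fin.natAdd b i) x hx).2
      rw [Fin.sum_univ_add] at h1
      simp only [hz, map_zero, zero_mul, Finset.sum_const_zero, zero_add] at h1
      exact h1
    · have h1 := (hch (Fin.castAdd k a) x hx).2
      rw [Fin.sum_univ_add] at h1
      exact h1

end Pool.Agent.Helper77.RK
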