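import Pool.Agent.Helper36.RK.GoalsI

/-! # RK1K. A commutative family cannot act effectively on the period map -/

open Complex Metric Set Filter Topology MeasureTheory Matrix
open scoped ContDiff ComplexConjugate ComplexOrder Manifold

namespace Pool.Agent.Helper77.RK

open Pool.Agent.Helper95.Lin Pool.Agent.Helper10.SP Pool.Agent.Helper95.RK Pool.Agent.Helper36.RK

universe u

theorem cj_sum {ι : Type*} (S : Finset ι) {k : ℕ} (s : ι → Matrix (Fin k) (Fin k) ℂ) (y : ι → ℂ) :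
    cj (∑ q ∈ S, y q • s q) = ∑ q ∈ S, conj (y q) • cj (s q) := by
  ext a b
  simp [cj, Matrix.sum_apply]

theorem hs_sum {k m : ℕ} (H : Matrix (Fin k) (Fin k) ℂ) (s s' : Fin m → Matrix (Fin k) (Fin k) ℂ)
    (x y : Fin m → ℂ) : hs H (∑ p, x p • s p) (∑ q, y q • s' q) =
      ∑ p, ∑ q, x p * conj (y q) * hs H (s p) (s' q) := by
  unfold hs
  rw [cj_sum]
  simp only [Matrix.sum_mul, Matrix.mul_sum, Matrix.trace_sum, Matrix.smul_mul, Matrix.mul_smul,
    Matrix.trace_smul, smul_eq_mul]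
  rw [Finset.sum_comm]
  refine Finset.sum_congr rfl fun p _ => ?_
  rw [Finset.mul_sum]
  refine Finset.sum_congr rfl fun q _ => ?_
  ring

theorem gram_trans {k m : ℕ} (H H' : Matrix (Fin k) (Fin k) ℂ)
    (s s' : Fin m → Matrix (Fin k) (Fin k) ℂ) (B : Matrix (Fin m) (Fin m) ℝ)
    (h : ∀ l l', hs H (s l) (s l') = ∑ p, ∑ q, (B p l : ℂ) * (B q l' : ℂ) * hs H' (s' p) (s' q)) :
    gram H s = (B.det : ℂ) ^ 2 * gram H' s' := by
  unfold Pool.Agent.Helper36.RK.gram
  have h1 : (Matrix.of fun i j => hs H (s i) (s j)) =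
      (toC B).transpose * (Matrix.of fun i j => hs H' (s' i) (s' j)) * toC B := by
    ext l l'
    simp only [Matrix.mul_apply, Matrix.of_apply, Matrix.transpose_apply, toC, Matrix.map_apply,
      Finset.sum_mul]
    rw [h, Finset.sum_comm]
    refine Finset.sum_congr rfl fun p _ => Finset.sum_congr rfl fun q _ => ?_
    ring
  have h2 : (toC B).det = (B.det : ℂ) := by
    exact (RingHom.map_det (Complex.ofRealHom) B).symm
  rw [h1, Matrix.det_mul, Matrix.det_mul, Matrix.det_transpose, h2]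
  ring

theorem sV_sum {b k m : ℕ} (hDIF : S_DIFP) {D : Set (Cn b)} {lam : Fin (2 * k) → Cn b → Cn k}
    {Om : Matrix (Fin (2 * k)) (Fin (2 * k)) ℝ} (hPol : Pol D lam Om) (z : Cn b)
    (v : Fin m → Cn b) (x : Fin m → ℂ) :
    sV lam Om z (∑ p, x p • v p) = ∑ p, x p • sV lam Om z (v p) := by
  have h := (hDIF D lam Om hPol).2.1 z
  obtain ⟨L, hL⟩ : ∃ L : Cn b →ₗ[ℂ] Matrix (Fin k) (Fin k) ℂ, ∀ w, L w = sV lam Om z w := by
    refine ⟨{ toFun := sV lam Om z, map_add' := ?_, map_smul' := ?_ }, fun _ => rfl⟩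
    · intro u w
      simpa using h 1 1 u w
    · intro x u
      simpa using h x 0 u 0
  rw [← hL, map_sum]
  refine Finset.sum_congr rfl fun p _ => ?_
  rw [map_smul, hL]

/-- Continuity of the Gram determinant. -/
theorem gram_cont {b k m : ℕ} {D : Set (Cn b)} {H : Cn b → Matrix (Fin k) (Fin k) ℂ}
    {s : Fin m → Cn b → Matrix (Fin k) (Fin k) ℂ}
    (hH : ∀ p q, ContinuousOn (fun z => H z p q) D)
    (hs' : ∀ l p q, ContinuousOn (fun z => s l z p q) D) :
    ContinuousOn (fun z => gram (H z) (fun l => s l z)) D := by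
  rw [continuousOn_iff_continuous_domRestrict]
  have hH' : Continuous fun z : D => H z := by
    refine continuous_matrix fun p q => ?_
    exact continuousOn_iff_continuous_domRestrict.1 (hH p q)
  have hs2 : ∀ l, Continuous fun z : D => s l z := by
    intro l
    refine continuous_matrix fun p q => ?_
    exact continuousOn_iff_continuous_domRestrict.1 (hs' l p q)
  unfold Pool.Agent.Helper36.RK.gram hs
  change Continuous fun z : D => (Matrix.of fun i j =>
    (s i z * H z * cj (s j z) * (H z).transpose).trace).det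
  refine Continuous.matrix_det ?_
  refine continuous_matrix fun i j => ?_
  change Continuous fun z : D => (s i z * H z * cj (s j z) * (H z).transpose).trace
  refine Continuous.matrix_trace ?_
  refine Continuous.matrix_mul (Continuous.matrix_mul (Continuous.matrix_mul (hs2 i) hH') ?_)
    hH'.matrix_transpose
  exact (hs2 j).matrix_map Complex.continuous_conj

/-- The equality case. -/
theorem hs_zero {k : ℕ} (hHSP : S_HSP) {H s : Matrix (Fin k) (Fin k) ℂ} (hH : H.PosDef)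
    (hs0 : s.transpose = s) (h : cj s * H.transpose * s = 0) : s = 0 := by
  refine ((hHSP H hH).2.1 s hs0).2.2 ?_
  unfold hs
  rw [Matrix.mul_assoc, Matrix.mul_assoc, Matrix.trace_mul_comm, Matrix.mul_assoc, h]
  simp

theorem rk1k (hBTK : S_BTK) (hIMK : S_IMK) (hDET : S_DETCK.{u}) (hDIF : S_DIFP) (hHSP : S_HSP)
    (hGIN : S_GINS) (hNP : S_NPSH) : S_RK1K.{u} := by
  intro b k N G _ c R Rel P Φ Hf C H hF lam Om hP hO m V hCF hz
  have hA := hF.fol
  have hBd2 : IsOpen (Bd c 2) := isOpen_iUnion fun i => isOpen_ball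
  have hR16 : 16 ≤ R := by
    have := hA.Rge
    have := hA.Cge
    linarith
  have h2R : Bd c 2 ⊆ Bd c R := iUnion_mono fun i => ball_subset_ball (by linarith)
  have hpol := fun i => polK hP hO i
  obtain ⟨i₀⟩ : Nonempty (Fin N) := ⟨⟨0, hA.posN⟩⟩
  obtain ⟨u, hu1, hu2, hu3⟩ := hDET c R Rel P Φ Hf C H hF m V hCF
  -- the index of the ball
  have huniq : ∀ i j z, z ∈ ball (c i) 2 → z ∈ ball (c j) 2 → i = j := by
    intro i j z hi hj
    by_contra hne
    have h1 := hA.sep i j hne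
    rw [mem_ball, dist_eq_norm] at hi hj
    have h2 : ‖c i - c j‖ ≤ ‖z - c i‖ + ‖z - c j‖ := by
      have : c i - c j = (z - c j) - (z - c i) := by abel
      rw [this]
      linarith [norm_sub_le (z - c j) (z - c i)]
    linarith
  obtain ⟨idx, hidx⟩ : ∃ idx : Cn b → Fin N, ∀ i, ∀ z ∈ ball (c i) 2, idx z = i := by
    classical
    refine ⟨fun z => if h : ∃ i, z ∈ ball (c i) 2 then h.choose else i₀, ?_⟩
    intro i z hzi
    have h : ∃ i, z ∈ ball (c i) 2 := ⟨i, hzi⟩
    simp only [h, dif_pos]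
    exact huniq _ _ z h.choose_spec hzi
  obtain ⟨F, hFd⟩ : ∃ F : Cn b → ℂ, F = fun z => gram (Hb lam (Om (idx z)) z)
    (fun l => sV lam (Om (idx z)) z (V l z)) := ⟨_, rfl⟩
  have hFi : ∀ i, ∀ z ∈ ball (c i) 2, F z = gram (Hb lam (Om i) z)
      (fun l => sV lam (Om i) z (V l z)) := by
    intro i z hzi
    rw [hFd]
    simp only [hidx i z hzi]
  obtain ⟨f, hf⟩ : ∃ f : Cn b → ℝ, f = fun z => ‖F z‖ * Real.exp (-2 * u z) := ⟨_, rfl⟩
  have hbR : ∀ i, ball (c i) 2 ⊆ Bd c 2 := fun i => subset_iUnion (fun i => ball (c i) 2) i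
  have hVd : ∀ i l, DifferentiableOn ℂ (V l) (ball (c i) 2) := fun i l =>
    (hCF.holo l).mono ((hbR i).trans (iUnion_mono fun i => ball_subset_ball (by norm_num)))
  have hHpos : ∀ i, ∀ z ∈ ball (c i) 2, (Hb lam (Om i) z).PosDef := fun i z hzi =>
    ((hpol i).pol z hzi).pos.inv
  -- invariance
  have hinv : ∀ U t, PBK c P U t → ∀ z ∈ U, f (t.g z) = f z := by
    intro U t hPB z hzU
    obtain ⟨hPt, hU2, hmaps⟩ := hPB
    have hz2 := hU2 hzU
    have hgz2 := hmaps hzU
    obtain ⟨B, U', hBdet, hU'o, hzU', -, hBrel⟩ := hCF.trans U t hPt z hzU hz2 hgz2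
    obtain ⟨-, hulog⟩ := hu3 U t ⟨hPt, hU2, hmaps⟩ z hzU B (by
      filter_upwards [hU'o.mem_nhds hzU'] with z' hz' using hBrel z' hz')
    obtain ⟨i, hi⟩ := mem_iUnion.1 hz2
    obtain ⟨j, hj⟩ := mem_iUnion.1 hgz2
    obtain ⟨-, -, hbt⟩ := hBTK c R P Φ Hf C hA lam Om hP hO U t hPt z hzU i j hi hj
    have h1 : F z = (B.det : ℂ) ^ 2 * F (t.g z) := by
      rw [hFi i z hi, hFi j _ hj]
      refine gram_trans _ _ _ _ B fun l l' => ?_
      have h2 := hbt (V l z) (V l' z)
      rw [hBrel z hzU' l, hBrel z hzU' l'] at h2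
      unfold bt at h2
      rw [← h2, sV_sum hDIF (hpol j), sV_sum hDIF (hpol j), hs_sum]
      refine Finset.sum_congr rfl fun p _ => Finset.sum_congr rfl fun q _ => ?_
      rw [Complex.conj_ofReal]
    have h3 : 0 < |B.det| := abs_pos.2 hBdet
    have hexp : Real.exp (-2 * u (t.g z)) = |B.det| ^ 2 * Real.exp (-2 * u z) := by
      have h4 : -2 * u (t.g z) = (Real.log |B.det| + Real.log |B.det|) + -2 * u z := by linarith
      rw [h4, Real.exp_add, Real.exp_add, Real.exp_log h3]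
      ring
    rw [hf]
    simp only
    rw [hexp, h1, norm_mul, norm_pow, Complex.norm_real, Real.norm_eq_abs]
    ring
  -- continuity
  have hFc : ContinuousOn F (Bd c 2) := by
    intro z hz2
    obtain ⟨i, hi⟩ := mem_iUnion.1 hz2
    have h1 : ContinuousOn (fun z => gram (Hb lam (Om i) z)
        (fun l => sV lam (Om i) z (V l z))) (ball (c i) 2) := by
      refine gram_cont (s := fun l z => sV lam (Om i) z (V l z)) ?_ ?_
      · exact fun p q => (((hDIF _ lam (Om i) (hpol i)).2.2.2.1 p q).2).continuousOn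
      · exact fun l p q =>
          ((hDIF _ lam (Om i) (hpol i)).2.2.1 (V l) (hVd i l) p q).continuousOn
    have h2 : ContinuousAt F z := by
      refine (h1.continuousAt (isOpen_ball.mem_nhds hi)).congr ?_
      filter_upwards [isOpen_ball.mem_nhds hi] with y hy
      exact (hFi i y hy).symm
    exact h2.continuousWithinAt
  have hfc : ContinuousOn f (Bd c 2) := by
    rw [hf]
    exact hFc.norm.mul (Real.continuous_exp.comp_continuousOn
      (continuousOn_const.mul hu1.continuousOn))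
  -- the maximum
  have hKc : IsCompact (⋃ i, closedBall (c i) 1) :=
    isCompact_iUnion fun i => isCompact_closedBall _ _
  have hK2 : (⋃ i, closedBall (c i) 1) ⊆ Bd c 2 :=
    iUnion_mono fun i => closedBall_subset_ball (by norm_num)
  obtain ⟨z₁, hz₁K, hz₁⟩ := hKc.exists_isMaxOn
    ⟨c i₀, mem_iUnion.2 ⟨i₀, mem_closedBall_self zero_le_one⟩⟩ (hfc.mono hK2)
  have hz₁2 := hK2 hz₁K
  have hmax : ∀ z ∈ Bd c 2, f z ≤ f z₁ := by
    intro z hz2
    obtain ⟨U, t, hPt, hzU, hg1, -⟩ := hA.coc z (h2R hz2) 0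
    obtain ⟨hUo, -, hgd, -⟩ := hA.holo U t hPt
    have h12 : Bd c 1 ⊆ Bd c 2 := iUnion_mono fun i => ball_subset_ball (by norm_num)
    have hUo' : IsOpen ((U ∩ t.g ⁻¹' Bd c 2) ∩ Bd c 2) :=
      (hgd.1.continuousOn.isOpen_inter_preimage hUo hBd2).inter hBd2
    have hPB : PBK c P ((U ∩ t.g ⁻¹' Bd c 2) ∩ Bd c 2) t :=
      ⟨hA.mono U _ t hPt hUo' fun y hy => hy.1.1, inter_subset_right, fun y hy => hy.1.2⟩
    rw [← hinv _ t hPB z ⟨⟨hzU, h12 hg1⟩, hz2⟩]
    refine hz₁ ?_
    exact iUnion_mono (fun i => ball_subset_closedBall) hg1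
  -- a point where the Gram determinant does not vanish
  obtain ⟨z₀, hz₀, hG0⟩ := hGIN (c i₀) 2 (by norm_num) (fun z => Hb lam (Om i₀) z)
    (fun l z => sV lam (Om i₀) z (V l z)) (hHpos i₀)
    (fun l p q => (hDIF _ lam (Om i₀) (hpol i₀)).2.2.1 (V l) (hVd i₀ l) p q)
    (fun l z hzi => (hDIF _ lam (Om i₀) (hpol i₀)).1 z hzi _)
    (fun l l' z hzi => hIMK c R P Φ Hf C hA lam Om hP hO m V hCF i₀ l l' z hzi)
    (fun x hx => hz i₀ x fun z hzi => by
      rw [sV_sum hDIF (hpol i₀)]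
      exact hx z hzi)
  have hpos : 0 < f z₁ := by
    have h1 : 0 < f z₀ := by
      rw [hf]
      simp only
      rw [hFi i₀ z₀ hz₀]
      have := norm_pos_iff.2 hG0
      positivity
    exact h1.trans_le (hmax z₀ (hbR i₀ hz₀))
  have hFz₁ : F z₁ ≠ 0 := by
    intro h0
    rw [hf] at hpos
    simp [h0] at hpos
  obtain ⟨i, hi⟩ := mem_iUnion.1 hz₁2
  obtain ⟨e0, he0⟩ : ∃ e0 : Fin m, e0 = ⟨0, hCF.pos⟩ := ⟨_, rfl⟩
  have hloc : IsLocalMax (fun z => Real.log ‖gram (Hb lam (Om i) z)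
      (fun l => sV lam (Om i) z (V l z))‖ - 2 * u z) z₁ := by
    have h1 : ∀ᶠ z in 𝓝 z₁, F z ≠ 0 :=
      (hFc.continuousAt (hBd2.mem_nhds hz₁2)).eventually_ne hFz₁
    filter_upwards [h1, isOpen_ball.mem_nhds hi] with z hFz hzi
    rw [← hFi i z hzi, ← hFi i z₁ hi]
    have h2 : ∀ y, F y ≠ 0 → Real.log ‖F y‖ - 2 * u y = Real.log (f y) := by
      intro y hy
      rw [hf]
      simp only
      rw [Real.log_mul (norm_ne_zero_iff.2 hy) (Real.exp_pos _).ne', Real.log_exp]
      ring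
    rw [h2 z hFz, h2 z₁ hFz₁]
    refine Real.log_le_log ?_ (hmax z (hbR i hzi))
    rw [hf]
    have := norm_pos_iff.2 hFz
    positivity
  have hG : gram (Hb lam (Om i) z₁) (fun l => sV lam (Om i) z₁ (V l z₁)) ≠ 0 := by
    rw [← hFi i z₁ hi]
    exact hFz₁
  have hkey := hNP _ lam (Om i) (hpol i) (fun l z => sV lam (Om i) z (V l z))
    (fun l p q => (hDIF _ lam (Om i) (hpol i)).2.2.1 (V l) (hVd i l) p q)
    (fun l z hzi => (hDIF _ lam (Om i) (hpol i)).1 z hzi _) u (hu1.mono (hbR i)) z₁ hi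
    (V e0 z₁) (hu2 z₁ hz₁2 _) hG hloc e0
  have hs0 := hs_zero hHSP (hHpos i z₁ hi)
    ((hDIF _ lam (Om i) (hpol i)).1 z₁ hi (V e0 z₁)) hkey
  refine hG ?_
  unfold Pool.Agent.Helper36.RK.gram
  refine Matrix.det_eq_zero_of_row_eq_zero e0 fun l => ?_
  rw [Matrix.of_apply]
  simp only [hs0]
  simp [hs]

end Pool.Agent.Helper77.RK
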